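import Pool.Agent.X117.JackCount3

/-!
# The set-partition expansion of the one-row Jack polynomials
-/

namespace Pool.Agent.Results.MP_d77547_co.OneRow

open Equiv Polynomial Pool.Agent.X117.QS Pool.Agent.X117.RSK

/-- `(n!/λ!) ∏_{s ∈ λ} (α + arm(s))`, where `λ` is the partition with the multiset `μ` of the parts:
the arms of the cells of a row of length `l` are `0, …, l - 1`. -/
noncomputable def jackCoeff (n : ℕ) (μ : Multiset ℕ) : ℚ[X] :=
  C ((n.factorial : ℚ) / ((μ.map fun l => (l.factorial : ℚ)).prod)) *
    (μ.map fun l => ∏ a ∈ Finset.range l, (X + C (a : ℚ))).prod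

open Classical in
/-- The monomial symmetric function `m_λ`: the sum of the monomials whose nonzero exponents form
the multiset of the parts of `λ`. -/
noncomputable def monoSymm {n : ℕ} (lam : n.Partition) : MvPowerSeries ℕ ℚ[X] := fun m =>
  if m.support.val.map m = lam.parts then 1 else 0

/-- The normalised one-row Jack polynomial. -/
noncomputable def jackRow (n : ℕ) : MvPowerSeries ℕ ℚ[X] :=
  ∑ lam : n.Partition, MvPowerSeries.C (jackCoeff n lam.parts) * monoSymm lam

/-- The fundamental quasisymmetric function with coefficients in `ℚ[α]`. -/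
noncomputable def FF (n : ℕ) (D : Finset ℕ) : MvPowerSeries ℕ ℚ[X] :=
  MvPowerSeries.map (Int.castRingHom ℚ[X]) (F n D)

theorem coeff_jackRow_of_content {n : ℕ} (f : Fin n → ℕ) :
    MvPowerSeries.coeff (∑ j, Finsupp.single (f j) 1) (jackRow n) =
      jackCoeff n ((Finset.univ.image f).val.map fun v =>
        (Finset.univ.filter fun j => f j = v).card) := by
  classical
  let m : ℕ →₀ ℕ := ∑ j, Finsupp.single (f j) 1
  have hm : ∀ v, m v = (Finset.univ.filter fun j => f j = v).card := by
    intro v
    simp only [m, Finsupp.finsetSum_apply, Finsupp.single_apply]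
    rw [Finset.card_filter]
  have hsupp : m.support = Finset.univ.image f := by
    ext v
    rw [Finsupp.mem_support_iff, hm, Finset.card_ne_zero, Finset.filter_nonempty_iff,
      Finset.mem_image]
  have e : m.support.val.map m = (Finset.univ.image f).val.map fun v =>
      (Finset.univ.filter fun j => f j = v).card := by
    rw [hsupp]
    exact Multiset.map_congr rfl fun v _ => hm v
  have hsum : (m.support.val.map m).sum = n := by
    rw [e]
    have := Finset.card_eq_sum_card_image f (Finset.univ : Finset (Fin n))
    rw [Finset.card_univ, Fintype.card_fin] at this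
    exact this.symm
  let lam : n.Partition :=
    { parts := m.support.val.map m
      parts_pos := by
        intro i hi
        rw [Multiset.mem_map] at hi
        obtain ⟨v, hv, rfl⟩ := hi
        exact Nat.pos_of_ne_zero (Finsupp.mem_support_iff.mp hv)
      parts_sum := hsum }
  rw [jackRow, map_sum, Finset.sum_eq_single lam]
  · rw [MvPowerSeries.coeff_C_mul]
    change jackCoeff n lam.parts * (if m.support.val.map m = lam.parts then 1 else 0) = _
    rw [if_pos rfl, mul_one]
    change jackCoeff n (m.support.val.map m) = _
    rw [e]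
  · intro mu _ hmu
    rw [MvPowerSeries.coeff_C_mul]
    change jackCoeff n mu.parts * (if m.support.val.map m = mu.parts then 1 else 0) = _
    rw [if_neg, mul_zero]
    intro h
    apply hmu
    exact Nat.Partition.ext h.symm
  · intro h
    exact absurd (Finset.mem_univ _) h

theorem coeff_jackRow_of_not {n : ℕ} {m : ℕ →₀ ℕ} (hm : (Finsupp.toMultiset m).card ≠ n) :
    MvPowerSeries.coeff m (jackRow n) = 0 := by
  rw [jackRow, map_sum]
  apply Finset.sum_eq_zero
  intro lam _
  rw [MvPowerSeries.coeff_C_mul]
  change jackCoeff n lam.parts * (if m.support.val.map m = lam.parts then 1 else 0) = _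
  rw [if_neg, mul_zero]
  intro h
  apply hm
  rw [Finsupp.card_toMultiset, ← lam.parts_sum, ← h]
  rfl

theorem toMultiset_content_card {n : ℕ} (f : Fin n → ℕ) :
    (Finsupp.toMultiset (∑ j, Finsupp.single (f j) 1)).card = n := by
  rw [toMultiset_content]
  simp

/-- For all `n`, the normalised one-row Jack polynomial is
`∑_{π} ∑_{β} α(α-1)⋯(α-|β|+1) F_{Des(P(f_β(π)))}`. -/
theorem result (n : ℕ) : jackRow n =
    ∑ π : Perm (Fin n), ∑ β : Finpartition (Finset.univ : Finset (Fin n)),
      MvPowerSeries.C (descPochhammer ℚ β.parts.card) *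
        FF n (DesT n (P (refill β.part π))) := by
  classical
  ext1 m
  by_cases hm : ∃ f : Fin n → ℕ, Monotone f ∧ ∑ j, Finsupp.single (f j) 1 = m
  · obtain ⟨f, hf, rfl⟩ := hm
    rw [coeff_jackRow_of_content]
    simp_rw [map_sum, MvPowerSeries.coeff_C_mul, FF, MvPowerSeries.coeff_map, DesT_P]
    have hF : ∀ w : Perm (Fin n), MvPowerSeries.coeff (∑ j, Finsupp.single (f j) 1) (F n (Des w)) =
        if Resp f w then 1 else 0 := by
      intro w
      rw [coeff_F hf]
      by_cases h : Resp f w
      · rw [if_pos ((resp_iff hf w).mpr h), if_pos h]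
      · rw [if_neg (fun h' => h ((resp_iff hf w).mp h')), if_neg h]
    simp_rw [hF]
    rw [Finset.sum_comm]
    have h1 : ∀ β : Finpartition (Finset.univ : Finset (Fin n)),
        ∑ π : Perm (Fin n), descPochhammer ℚ β.parts.card *
          (Int.castRingHom ℚ[X]) (if Resp f (refill β.part π)⁻¹ then 1 else 0) =
        descPochhammer ℚ β.parts.card * (((Finset.univ.filter fun π : Perm (Fin n) =>
          Resp f (refill β.part π)⁻¹).card : ℕ) : ℚ[X]) := by
      intro β
      rw [← Finset.mul_sum, Finset.card_filter]
      congr 1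
      rw [Nat.cast_sum]
      refine Finset.sum_congr rfl fun π _ => ?_
      split_ifs <;> simp
    simp_rw [h1]
    -- the identity of polynomials
    apply Polynomial.eq_of_infinite_eval_eq
    apply Set.infinite_of_injective_forall_mem (f := fun N : ℕ => (N : ℚ)) Nat.cast_injective
    intro N
    simp only [Set.mem_ofPred_eq]
    have h2 : ∑ β : Finpartition (Finset.univ : Finset (Fin n)), N.descFactorial β.parts.card *
        (Finset.univ.filter fun π : Perm (Fin n) => Resp f (refill β.part π)⁻¹).card =
        n.factorial * ∏ v ∈ Finset.univ.image f,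
          Nat.multichoose N (Finset.univ.filter fun j => f j = v).card := by
      rw [sum_partitions N f, total_count hf N, card_block_mono hf N]
    have h3 : eval (N : ℚ) (∑ β : Finpartition (Finset.univ : Finset (Fin n)),
        descPochhammer ℚ β.parts.card * (((Finset.univ.filter fun π : Perm (Fin n) =>
          Resp f (refill β.part π)⁻¹).card : ℕ) : ℚ[X])) =
        ((∑ β : Finpartition (Finset.univ : Finset (Fin n)), N.descFactorial β.parts.card *
        (Finset.univ.filter fun π : Perm (Fin n) => Resp f (refill β.part π)⁻¹).card : ℕ) : ℚ) := by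
      rw [eval_finsetSum, Nat.cast_sum]
      refine Finset.sum_congr rfl fun β _ => ?_
      rw [eval_mul, descPochhammer_eval_eq_descFactorial, eval_natCast, Nat.cast_mul]
    rw [h3, h2, jackCoeff, eval_mul, eval_C]
    rw [Multiset.map_map, Multiset.map_map]
    have h4 : ∀ s : Finset ℕ, ∀ g : ℕ → ℕ, eval (N : ℚ) ((s.val.map
        ((fun l => ∏ a ∈ Finset.range l, (X + C (a : ℚ))) ∘ g)).prod) =
        ((∏ v ∈ s, ((g v).factorial * Nat.multichoose N (g v)) : ℕ) : ℚ) := by
      intro s g
      change eval (N : ℚ) (∏ v ∈ s, ∏ a ∈ Finset.range (g v), (X + C (a : ℚ))) = _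
      rw [eval_prod, Nat.cast_prod]
      refine Finset.prod_congr rfl fun v _ => ?_
      rw [eval_prod, ← prod_add_range, Nat.cast_prod]
      refine Finset.prod_congr rfl fun a _ => ?_
      simp
    rw [h4]
    change (n.factorial : ℚ) / (∏ v ∈ Finset.univ.image f,
      ((Finset.univ.filter fun j => f j = v).card.factorial : ℚ)) * _ = _
    rw [Finset.prod_mul_distrib, Nat.cast_mul, Nat.cast_mul, Nat.cast_prod]
    have h5 : (∏ v ∈ Finset.univ.image f,
      ((Finset.univ.filter fun j => f j = v).card.factorial : ℚ)) ≠ 0 := by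
      rw [Finset.prod_ne_zero_iff]
      intro v _
      exact_mod_cast Nat.factorial_ne_zero _
    field_simp
  · rw [coeff_jackRow_of_not (fun h => hm (exists_content h))]
    symm
    simp_rw [map_sum, MvPowerSeries.coeff_C_mul, FF, MvPowerSeries.coeff_map]
    apply Finset.sum_eq_zero
    intro π _
    apply Finset.sum_eq_zero
    intro β _
    rw [coeff_F_eq_zero hm]
    simp

end Pool.Agent.Results.MP_d77547_co.OneRow
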